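import Pool.Agent.Zk37.StepCF

set_option autoImplicit false

/-! The irrational case. -/

namespace Pool.Agent.Zk37

open Filter Topology

/-- List level state, symmetric in the two players. -/
def TT (x : ℝ) (r : ℕ) (A B : List ℕ) : Prop :=
  ∃ σ : ℝ, St x σ r (cs A) (cs B) ∨ St x σ r (cs B) (cs A)

lemma cs_append_two (L : List ℕ) (b c : ℕ) : cs (L ++ [b, c]) = ((cs L).step b).step c := by
  rw [show L ++ [b, c] = (L ++ [b]) ++ [c] by simp, cs_snoc, cs_snoc]

lemma St.mono {x σ : ℝ} {r r' : ℕ} {A B : CS} (h : St x σ r A B) (hr : r' ≤ r) : St x σ r' A B := by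
  refine ⟨h.ga, h.gb, h.pos, h.lt, ?_⟩
  have h1 : (r' : ℝ) ≤ r := by exact_mod_cast hr
  have h2 : (r' : ℝ) * B.q ≤ r * B.q := mul_le_mul_of_nonneg_right h1 (by positivity)
  exact h2.trans h.rat

lemma TT.mono {x : ℝ} {r r' : ℕ} {A B : List ℕ} (h : TT x r A B) (hr : r' ≤ r) : TT x r' A B := by
  obtain ⟨σ, h | h⟩ := h
  · exact ⟨σ, Or.inl (h.mono hr)⟩
  · exact ⟨σ, Or.inr (h.mono hr)⟩

lemma TT.symm {x : ℝ} {r : ℕ} {A B : List ℕ} (h : TT x r A B) : TT x r B A := by
  obtain ⟨σ, h | h⟩ := h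
  · exact ⟨σ, Or.inr h⟩
  · exact ⟨σ, Or.inl h⟩

/-- Superstep on the level of lists. -/
lemma list_superstep {x : ℝ} (hx : Irrational x) {r : ℕ} (hr : 4 ≤ r) {σ : ℝ} {A B : List ℕ}
    (h : St x σ r (cs A) (cs B)) :
    (∃ A' B' : List ℕ, Ext A A' (r - 2) ∧ Ext B B' (r - 2) ∧
      ∃ σ', St x σ' (r + 1) (cs A') (cs B')) ∨
    (∃ B' : List ℕ, Ext B B' (r - 2) ∧ ∃ σ', St x σ' (r + 1) (cs B') (cs A)) := by
  rcases superstep hx hr h with ⟨b, c, hb, hc, hb1, hc1, h'⟩ | ⟨b, c, hb, hc, hb1, hc1, h'⟩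
  · left
    refine ⟨A ++ [c], B ++ [b], ⟨[c], by simp, rfl, ?_⟩, ⟨[b], by simp, rfl, ?_⟩, -σ, ?_⟩
    · intro d hd
      simp only [List.mem_singleton] at hd
      omega
    · intro d hd
      simp only [List.mem_singleton] at hd
      omega
    · rw [cs_snoc, cs_snoc]; exact h'
  · right
    refine ⟨B ++ [b, c], ⟨[b, c], by simp, rfl, ?_⟩, σ, ?_⟩
    · intro d hd
      simp only [List.mem_cons, List.not_mem_nil, or_false] at hd
      omega
    · rw [cs_append_two]; exact h'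

/-- Two supersteps extend both lists. -/
lemma double_aux {x : ℝ} (hx : Irrational x) {r : ℕ} (hr : 4 ≤ r) {σ : ℝ} {A B : List ℕ}
    (h : St x σ r (cs A) (cs B)) :
    ∃ A' B' : List ℕ, Ext A A' (r - 2) ∧ Ext B B' (r - 2) ∧ TT x (r + 1) A' B' := by
  rcases list_superstep hx hr h with ⟨A', B', hA, hB, σ', h'⟩ | ⟨B', hB, σ', h'⟩
  · exact ⟨A', B', hA, hB, σ', Or.inl h'⟩
  · rcases list_superstep hx (by omega : 4 ≤ r + 1) h' with
      ⟨B'', A'', hB', hA', σ'', h''⟩ | ⟨A'', hA', σ'', h''⟩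
    · refine ⟨A'', B'', hA'.mono (by omega), hB.trans (hB'.mono (by omega)), ?_⟩
      exact TT.mono ⟨σ'', Or.inr h''⟩ (by omega)
    · refine ⟨A'', B', hA'.mono (by omega), hB, ?_⟩
      exact TT.mono ⟨σ'', Or.inl h''⟩ (by omega)

lemma double_step {x : ℝ} (hx : Irrational x) {r : ℕ} (hr : 4 ≤ r) {A B : List ℕ}
    (h : TT x r A B) :
    ∃ A' B' : List ℕ, Ext A A' (r - 2) ∧ Ext B B' (r - 2) ∧ TT x (r + 1) A' B' := by
  obtain ⟨σ, h | h⟩ := h
  · exact double_aux hx hr h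
  · obtain ⟨B', A', hB, hA, hT⟩ := double_aux hx hr h
    exact ⟨A', B', hA, hB, hT.symm⟩

/-- The start: even initial segments of the continued fraction of `x`. -/
lemma start_aux {x : ℝ} (hx : Irrational x) {L : List ℕ} (hg : (cs L).Good 1)
    (hpos : 0 < x - (cs L).conv) (hlt : (x - (cs L).conv) * ((cs L).q * ((cs L).q + (cs L).qm)) < 1) :
    ∃ b c : ℕ, 1 ≤ b ∧ 1 ≤ c ∧ (cs (L ++ [b, c])).Good 1 ∧ 0 < x - (cs (L ++ [b, c])).conv ∧
      (x - (cs (L ++ [b, c])).conv) *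
        ((cs (L ++ [b, c])).q * ((cs (L ++ [b, c])).q + (cs (L ++ [b, c])).qm)) < 1 ∧
      2 * (cs L).q ≤ (cs (L ++ [b, c])).q := by
  obtain ⟨b, hb1, -, -, hp, -, hl⟩ := overshoot hx hg (by simpa using hpos) (by simpa using hlt)
  have hg' := hg.step hb1
  obtain ⟨c, hc1, -, -, hp', -, hl'⟩ := overshoot hx hg' hp hl
  have hg'' := hg'.step hc1
  rw [neg_neg] at hp' hl' hg''
  rw [one_mul] at hp' hl'
  refine ⟨b, c, hb1, hc1, ?_, ?_, ?_, ?_⟩
  · rw [cs_append_two]; exact hg''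
  · rw [cs_append_two]; exact hp'
  · rw [cs_append_two]; exact hl'
  · rw [cs_append_two]
    show 2 * (cs L).q ≤ c * (b * (cs L).q + (cs L).qm) + (cs L).q
    have h1 : 1 * (cs L).q ≤ b * (cs L).q := Nat.mul_le_mul_right _ hb1
    have h2 : 1 * (b * (cs L).q + (cs L).qm) ≤ c * (b * (cs L).q + (cs L).qm) :=
      Nat.mul_le_mul_right _ hc1
    omega

lemma start {x : ℝ} (hx : Irrational x) (h0 : 0 < x) (h1 : x < 1) :
    ∃ A B : List ℕ, (∀ d ∈ A, 1 ≤ d) ∧ (∀ d ∈ B, 1 ≤ d) ∧ TT x 4 A B := by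
  have hL0 : (cs []).Good 1 := CS.good_init
  have hc0 : (cs []).conv = 0 := by simp [CS.conv, CS.init]
  obtain ⟨b, c, hb, hc, hg, hp, hl, hq⟩ := start_aux hx hL0 (by rw [hc0]; linarith) (by
    rw [hc0]; simp [CS.init]; exact h1)
  obtain ⟨b', c', hb', hc', hg', hp', hl', hq'⟩ := start_aux hx hg hp hl
  set A := ([] ++ [b, c]) ++ [b', c'] with hA
  refine ⟨A, [], ?_, by simp, 1, Or.inl ⟨hg', hL0, ?_, ?_, ?_⟩⟩
  · intro d hd
    simp [hA] at hd
    omega
  · rw [hc0]; simpa using hp'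
  · rw [hc0, one_mul, sub_zero]
    refine lt_of_le_of_lt ?_ hl'
    apply mul_le_mul_of_nonneg_left _ hp'.le
    apply mul_le_mul_of_nonneg_left _ (by positivity)
    simp only [le_add_iff_nonneg_right]
    positivity
  · have h5 : (cs []).q = 1 := rfl
    rw [h5] at hq ⊢
    have : 4 * 1 ≤ (cs A).q := by omega
    exact_mod_cast this

theorem concl_irrational {x : ℝ} (hx : Irrational x) (h0 : 0 < x) (h1 : x < 1) : Concl x := by
  obtain ⟨A0, B0, hA0, hB0, hT0⟩ := start hx h0 h1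
  choose! fA fB hfA hfB hfT using fun (r : ℕ) (p : List ℕ × List ℕ) (hr : 4 ≤ r)
    (h : TT x r p.1 p.2) => double_step hx hr h
  let S : ℕ → List ℕ × List ℕ := fun n =>
    Nat.rec (A0, B0) (fun n p => (fA (n + 4) p, fB (n + 4) p)) n
  have hS : ∀ n, TT x (n + 4) (S n).1 (S n).2 := by
    intro n
    induction n with
    | zero => simpa [S] using hT0
    | succ n ih =>
      have := hfT (n + 4) (S n) (by omega) ih
      rw [show n + 1 + 4 = n + 4 + 1 by ring]
      exact this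
  apply concl_of_chain x (fun n => (S n).1) (fun n => (S n).2) hA0 hB0
  · intro n
    exact (hfA (n + 4) (S n) (by omega) (hS n)).mono (by omega)
  · intro n
    exact (hfB (n + 4) (S n) (by omega) (hS n)).mono (by omega)
  · -- the limit
    have hb : ∀ n, |(cs (S n).1).conv + (cs (S n).2).conv - x| ≤ 1 / (n + 1 : ℝ) := by
      have key : ∀ (n : ℕ) (σ : ℝ) (P Q : CS), St x σ (n + 4) P Q →
          |P.conv + Q.conv - x| ≤ 1 / (n + 1 : ℝ) := by
        intro n σ P Q h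
        have hQ : (1 : ℝ) ≤ Q.q := by exact_mod_cast h.gb.qpos
        have hrat := h.rat
        push_cast at hrat
        have hP : (n : ℝ) + 1 ≤ P.q := by nlinarith
        have hP1 : (1 : ℝ) ≤ P.q := by exact_mod_cast h.ga.qpos
        have habs : |P.conv + Q.conv - x| = σ * (x - P.conv - Q.conv) := by
          have hp := h.pos
          rcases h.ga.sgn with hσ | hσ
          · rw [hσ] at hp ⊢
            rw [abs_of_neg (by linarith)]; ring
          · rw [hσ] at hp ⊢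
            rw [abs_of_pos (by linarith)]; ring
        rw [habs, le_div_iff₀ (by positivity)]
        have h1 : σ * (x - P.conv - Q.conv) * (n + 1) ≤ σ * (x - P.conv - Q.conv) * (P.q * P.q) := by
          apply mul_le_mul_of_nonneg_left _ h.pos.le
          nlinarith
        linarith [h.lt]
      intro n
      obtain ⟨σ, h | h⟩ := hS n
      · exact key n σ _ _ h
      · have := key n σ _ _ h
        rwa [add_comm (cs (S n).2).conv] at this
    rw [tendsto_iff_norm_sub_tendsto_zero]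
    apply squeeze_zero (fun n => norm_nonneg _) hb
    exact tendsto_one_div_add_atTop_nhds_zero_nat

end Pool.Agent.Zk37
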