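import Pool.Agent.Zk37.ChainCF

set_option autoImplicit false

/-! The rational case. -/

namespace Pool.Agent.Zk37

open Filter Topology

lemma cs_append_two' (L : List ℕ) (b c : ℕ) : cs (L ++ [b, c]) = ((cs L).step b).step c := by
  rw [show L ++ [b, c] = (L ++ [b]) ++ [c] by simp, cs_snoc, cs_snoc]

/-- Prepending a digit. -/
def CS.pre (d : ℕ) (s : CS) : CS := ⟨s.qm, d * s.qm + s.pm, s.q, d * s.q + s.p⟩

lemma pre_step (d e : ℕ) (s : CS) : (CS.pre d s).step e = CS.pre d (s.step e) := by
  ext
  · rfl
  · rfl
  · simp [CS.pre, CS.step]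
  · simp [CS.pre, CS.step]; ring

lemma foldl_pre (d : ℕ) (L : List ℕ) (s : CS) :
    L.foldl CS.step (CS.pre d s) = CS.pre d (L.foldl CS.step s) := by
  induction L generalizing s with
  | nil => rfl
  | cons e L ih => simp only [List.foldl_cons]; rw [pre_step, ih]

lemma cs_cons (d : ℕ) (L : List ℕ) : cs (d :: L) = CS.pre d (cs L) := by
  unfold cs
  rw [List.foldl_cons, ← foldl_pre]
  rfl

/-- Good digit lists. -/
lemma good_cs (L : List ℕ) (h : ∀ d ∈ L, 1 ≤ d) : (cs L).Good ((-1) ^ L.length) := by
  induction L using List.reverseRecOn with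
  | nil => simpa using CS.good_init
  | append_singleton L d ih =>
    rw [cs_snoc, List.length_append, List.length_singleton, pow_succ, mul_neg_one]
    exact (ih (fun e he => h e (by simp [he]))).step (h d (by simp))

/-- Euclid: coprime `0 < s < t` have digit lists of both parities. -/
lemma euclid (t : ℕ) : ∀ s : ℕ, 0 < s → s < t → Nat.Coprime s t →
    ∀ par : ℕ, ∃ L : List ℕ, (∀ d ∈ L, 1 ≤ d) ∧ L.length % 2 = par % 2 ∧ (cs L).p = s ∧ (cs L).q = t := by
  induction t using Nat.strong_induction_on with
  | _ t ih =>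
    intro s hs hst hco par
    by_cases h1 : s = 1
    · subst h1
      rcases Nat.mod_two_eq_zero_or_one par with hp | hp
      · refine ⟨[t - 1, 1], ?_, by simp [hp], ?_, ?_⟩
        · intro d hd
          simp only [List.mem_cons, List.not_mem_nil, or_false] at hd
          omega
        · simp [cs, CS.step, CS.init]
        · simp [cs, CS.step, CS.init]; omega
      · refine ⟨[t], ?_, by simp [hp], ?_, ?_⟩
        · intro d hd
          simp only [List.mem_singleton] at hd
          omega
        · simp [cs, CS.step, CS.init]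
        · simp [cs, CS.step, CS.init]
    · have hmod : t % s < s := Nat.mod_lt _ hs
      have hmod0 : 0 < t % s := by
        rcases Nat.eq_zero_or_pos (t % s) with h | h
        · exfalso
          have h2 : s ∣ t := Nat.dvd_of_mod_eq_zero h
          have h3 := Nat.Coprime.eq_one_of_dvd hco h2
          exact h1 h3
        · exact h
      have hco' : Nat.Coprime (t % s) s := by
        have : Nat.gcd s t = 1 := hco
        rw [Nat.Coprime, ← Nat.gcd_rec]
        exact this
      obtain ⟨L, hL, hpar, hp, hq⟩ := ih s hst (t % s) hmod0 hmod hco' (par + 1)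
      refine ⟨(t / s) :: L, ?_, ?_, ?_, ?_⟩
      · intro d hd
        rcases List.mem_cons.1 hd with h | h
        · rw [h]; exact Nat.div_pos hst.le hs
        · exact hL d h
      · simp only [List.length_cons]; omega
      · rw [cs_cons]; exact hq
      · rw [cs_cons]
        show (t / s) * (cs L).q + (cs L).p = t
        rw [hp, hq, mul_comm]
        exact Nat.div_add_mod t s

/-- The invariant linking the two states: `Φ(p,q) = (s q - t p, t q)`. -/
structure Lnk (s t : ℕ) (P Q : CS) : Prop where
  a1 : (s : ℤ) * P.qm - t * P.pm = Q.pm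
  a2 : (t : ℤ) * P.qm = Q.qm
  a3 : (s : ℤ) * P.q - t * P.p = t * t * Q.p
  a4 : (t : ℤ) * P.q = t * t * Q.q

lemma Lnk.next {s t : ℕ} {P Q : CS} (h : Lnk s t P Q) (K K' : ℕ) :
    Lnk s t ((P.step K).step (t * t * K')) ((Q.step (t * t * K)).step K') := by
  obtain ⟨h1, h2, h3, h4⟩ := h
  constructor
  · simp only [CS.step_pm, CS.step_qm, CS.step_p, CS.step_q]
    push_cast
    linear_combination h1 + (K : ℤ) * h3
  · simp only [CS.step_pm, CS.step_qm, CS.step_p, CS.step_q]
    push_cast
    linear_combination h2 + (K : ℤ) * h4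
  · simp only [CS.step_pm, CS.step_qm, CS.step_p, CS.step_q]
    push_cast
    linear_combination (1 + (t * t * K' : ℤ) * K) * h3 + (t * t * K' : ℤ) * h1
  · simp only [CS.step_pm, CS.step_qm, CS.step_p, CS.step_q]
    push_cast
    linear_combination (1 + (t * t * K' : ℤ) * K) * h4 + (t * t * K' : ℤ) * h2

lemma Lnk.sum {s t : ℕ} {P Q : CS} (h : Lnk s t P Q) (ht : 0 < t) (hP : 0 < P.q) (hQ : 0 < Q.q) :
    P.conv + Q.conv = (s : ℝ) / t := by
  have h3 : (s : ℝ) * P.q - t * P.p = t * t * Q.p := by exact_mod_cast h.a3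
  have h4 : (t : ℝ) * P.q = t * t * Q.q := by exact_mod_cast h.a4
  have htR : (0 : ℝ) < t := by exact_mod_cast ht
  have hPR : (0 : ℝ) < P.q := by exact_mod_cast hP
  have hQR : (0 : ℝ) < Q.q := by exact_mod_cast hQ
  have h5 : (P.q : ℝ) = t * Q.q := by
    have : (t : ℝ) * P.q = t * (t * Q.q) := by rw [h4]; ring
    exact mul_left_cancel₀ htR.ne' this
  unfold CS.conv
  rw [div_add_div _ _ hPR.ne' hQR.ne', div_eq_div_iff (by positivity) htR.ne']
  rw [h5] at h3 ⊢
  have h6 : (t : ℝ) * (s * Q.q - P.p) = t * (t * Q.p) := by linear_combination h3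
  have h7 := mul_left_cancel₀ htR.ne' h6
  linear_combination (-(t : ℝ) * Q.q) * h7

theorem concl_rational {x : ℝ} (h0 : 0 < x) (h1 : x ≤ 1) (hx : ¬ Irrational x) : Concl x := by
  unfold Irrational at hx
  simp only [Set.mem_range, not_not] at hx
  obtain ⟨y, rfl⟩ := hx
  have hy0 : 0 < y := by exact_mod_cast h0
  have hy1 : y ≤ 1 := by exact_mod_cast h1
  obtain ⟨s, hs⟩ : ∃ s : ℕ, (s : ℤ) = y.num := ⟨y.num.toNat, Int.toNat_of_nonneg (Rat.num_nonneg.2 hy0.le)⟩
  set t := y.den with ht
  have htpos : 0 < t := y.den_pos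
  have hspos : 0 < s := by
    have : 0 < y.num := Rat.num_pos.2 hy0
    omega
  have hco : Nat.Coprime s t := by
    have := y.reduced
    rw [← hs] at this
    simpa using this
  have hyst : (y : ℝ) = (s : ℝ) / t := by
    have h2 : (y : ℚ) = (s : ℚ) / t := by
      rw [← Rat.num_div_den y, ← hs]; push_cast; rfl
    rw [h2]; push_cast; rfl
  have hle : s ≤ t := by
    have h2 : (s : ℝ) / t ≤ 1 := by rw [← hyst]; exact_mod_cast hy1
    rw [div_le_one (by exact_mod_cast htpos)] at h2
    exact_mod_cast h2
  -- the odd list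
  obtain ⟨C, hC, hodd, hp, hq⟩ : ∃ C : List ℕ, (∀ d ∈ C, 1 ≤ d) ∧ C.length % 2 = 1 ∧
      (cs C).p = s ∧ (cs C).q = t := by
    rcases hle.lt_or_eq with h | h
    · obtain ⟨L, hL, hpar, h3, h4⟩ := euclid t s hspos h hco 1
      exact ⟨L, hL, by omega, h3, h4⟩
    · have h2 : t = 1 := by rw [h] at hco; exact (Nat.coprime_self t).1 hco
      refine ⟨[1], by simp, by simp, ?_, ?_⟩
      · simp [cs, CS.step, CS.init]; omega
      · simp [cs, CS.step, CS.init]; omega
  have hgood := good_cs C hC
  have hdet := hgood.det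
  rw [Odd.neg_one_pow (Nat.odd_iff.2 hodd)] at hdet
  have hdetZ : ((cs C).q : ℤ) * (cs C).pm - (cs C).p * (cs C).qm = -1 := by
    exact_mod_cast hdet
  rw [hp, hq] at hdetZ
  set r := t + (cs C).qm with hr
  -- the chain
  let A : ℕ → List ℕ := fun n => Nat.rec [t * r] (fun n L => L ++ [n + 1, t * t * (n + 1)]) n
  let B : ℕ → List ℕ := fun n => Nat.rec (C ++ [1]) (fun n L => L ++ [t * t * (n + 1), n + 1]) n
  have hA0 : A 0 = [t * r] := rfl
  have hB0 : B 0 = C ++ [1] := rfl
  have hAs : ∀ n, A (n + 1) = A n ++ [n + 1, t * t * (n + 1)] := fun n => rfl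
  have hBs : ∀ n, B (n + 1) = B n ++ [t * t * (n + 1), n + 1] := fun n => rfl
  have htt : ∀ n, n + 1 ≤ t * t * (n + 1) := by
    intro n
    have : 1 ≤ t * t := Nat.mul_pos htpos htpos
    nlinarith
  have hlnk : ∀ n, Lnk s t (cs (A n)) (cs (B n)) := by
    intro n
    induction n with
    | zero =>
      rw [hA0, hB0, cs_snoc]
      constructor
      · have e1 : (cs [t * r]).qm = 1 := by simp [cs, CS.step, CS.init]
        have e2 : (cs [t * r]).pm = 0 := by simp [cs, CS.step, CS.init]
        rw [CS.step_pm, e1, e2, hp]; push_cast; ring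
      · have e1 : (cs [t * r]).qm = 1 := by simp [cs, CS.step, CS.init]
        rw [CS.step_qm, e1, hq]; push_cast; ring
      · simp only [CS.step_p, one_mul]
        have : (cs [t * r]).q = t * r := by simp [cs, CS.step, CS.init]
        have h2 : (cs [t * r]).p = 1 := by simp [cs, CS.step, CS.init]
        rw [this, h2, hp, hr]
        push_cast
        linear_combination (-(t : ℤ)) * hdetZ
      · simp only [CS.step_q, one_mul]
        have : (cs [t * r]).q = t * r := by simp [cs, CS.step, CS.init]
        rw [this, hq, hr]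
        push_cast; ring
    | succ n ih =>
      rw [hAs, hBs, cs_append_two', cs_append_two']
      exact ih.next (n + 1) (n + 1)
  have hAd : ∀ n, ∀ d ∈ A n, 1 ≤ d := by
    intro n
    induction n with
    | zero =>
      rw [hA0]; intro d hd
      simp only [List.mem_singleton] at hd
      rw [hd]; exact Nat.mul_pos htpos (by omega)
    | succ n ih =>
      rw [hAs]; intro d hd
      rcases List.mem_append.1 hd with h | h
      · exact ih d h
      · simp only [List.mem_cons, List.not_mem_nil, or_false] at h
        have := htt n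
        omega
  have hBd : ∀ n, ∀ d ∈ B n, 1 ≤ d := by
    intro n
    induction n with
    | zero =>
      rw [hB0]; intro d hd
      rcases List.mem_append.1 hd with h | h
      · exact hC d h
      · simp only [List.mem_singleton] at h; omega
    | succ n ih =>
      rw [hBs]; intro d hd
      rcases List.mem_append.1 hd with h | h
      · exact ih d h
      · simp only [List.mem_cons, List.not_mem_nil, or_false] at h
        have := htt n
        omega
  apply concl_of_chain _ A B (hAd 0) (hBd 0)
  · intro n
    refine ⟨[n + 1, t * t * (n + 1)], by simp, hAs n, ?_⟩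
    intro d hd
    simp only [List.mem_cons, List.not_mem_nil, or_false] at hd
    have := htt n
    omega
  · intro n
    refine ⟨[t * t * (n + 1), n + 1], by simp, hBs n, ?_⟩
    intro d hd
    simp only [List.mem_cons, List.not_mem_nil, or_false] at hd
    have := htt n
    omega
  · have : (fun n => (cs (A n)).conv + (cs (B n)).conv) = fun _ => (y : ℝ) := by
      funext n
      rw [(hlnk n).sum htpos (good_cs _ (hAd n)).qpos (good_cs _ (hBd n)).qpos, hyst]
    rw [this]
    exact tendsto_const_nhds

end Pool.Agent.Zk37
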