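import Pool.Agent.Zk37.GaussCF

set_option autoImplicit false

/-! From chains of digit lists to pairs of reals with digits tending to infinity. -/

namespace Pool.Agent.Zk37

open Filter Topology

/-- `L'` properly extends `L` by digits that are at least `k`. -/
def Ext (L L' : List ℕ) (k : ℕ) : Prop := ∃ M : List ℕ, M ≠ [] ∧ L' = L ++ M ∧ ∀ d ∈ M, k ≤ d

lemma Ext.trans {L L' L'' : List ℕ} {k : ℕ} (h : Ext L L' k) (h' : Ext L' L'' k) : Ext L L'' k := by
  obtain ⟨M, hM, rfl, hd⟩ := h
  obtain ⟨M', hM', rfl, hd'⟩ := h'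
  refine ⟨M ++ M', by simp [hM], by simp, ?_⟩
  intro d hd0
  rcases List.mem_append.1 hd0 with h | h
  · exact hd d h
  · exact hd' d h

lemma Ext.mono {L L' : List ℕ} {k k' : ℕ} (h : Ext L L' k) (hk : k' ≤ k) : Ext L L' k' := by
  obtain ⟨M, hM, rfl, hd⟩ := h
  exact ⟨M, hM, rfl, fun d h => hk.trans (hd d h)⟩

lemma Ext.length_lt {L L' : List ℕ} {k : ℕ} (h : Ext L L' k) : L.length < L'.length := by
  obtain ⟨M, hM, rfl, hd⟩ := h
  have : 0 < M.length := List.length_pos_iff.2 hM
  simp; exact this

/-- Chain extraction. -/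
lemma exists_seq (L : ℕ → List ℕ) (h0 : ∀ d ∈ L 0, 1 ≤ d) (h : ∀ n, Ext (L n) (L (n + 1)) (n + 1)) :
    ∃ a : ℕ → ℕ, (∀ n, 1 ≤ a n) ∧ Tendsto a atTop atTop ∧
      ∀ n, L n = (List.range (L n).length).map a := by
  have hlen : ∀ n, n ≤ (L n).length := by
    intro n
    induction n with
    | zero => simp
    | succ n ih => have := (h n).length_lt; omega
  have hpre : ∀ n m, n ≤ m → L n <+: L m := by
    intro n m hnm
    induction m, hnm using Nat.le_induction with
    | base => exact List.prefix_refl _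
    | succ m hm ih =>
      obtain ⟨M, hM, h1, hd⟩ := h m
      rw [h1]
      exact ih.trans (List.prefix_append _ _)
  set a : ℕ → ℕ := fun i => (L (i + 1)).getD i 0 with ha
  -- agreement
  have hag : ∀ n i, i < (L n).length → (L n).getD i 0 = a i := by
    intro n i hi
    have hi' : i < (L (i + 1)).length := by have := hlen (i + 1); omega
    simp only [ha]
    rcases le_total n (i + 1) with hle | hle
    · have := hpre _ _ hle
      obtain ⟨t, ht⟩ := this
      rw [← ht, List.getD_append _ _ _ _ hi]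
    · have := hpre _ _ hle
      obtain ⟨t, ht⟩ := this
      rw [← ht, List.getD_append _ _ _ _ hi']
  have hdig : ∀ n i, (L n).length ≤ i → i < (L (n + 1)).length → n + 1 ≤ a i := by
    intro n i h1 h2
    rw [← hag (n + 1) i h2]
    obtain ⟨M, hM, h3, hd⟩ := h n
    rw [h3] at h2 ⊢
    rw [List.length_append] at h2
    rw [List.getD_append_right _ _ _ _ h1]
    have h4 : i - (L n).length < M.length := by omega
    rw [List.getD_eq_getElem _ _ h4]
    exact hd _ (List.getElem_mem h4)
  have hloc : ∀ n i, (L n).length ≤ i → n + 1 ≤ a i := by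
    intro n i hi
    have key : ∀ m, n ≤ m → i < (L m).length → n + 1 ≤ a i := by
      intro m hnm
      induction m, hnm using Nat.le_induction with
      | base => intro h; omega
      | succ m hm ih =>
        intro h1
        by_cases h2 : i < (L m).length
        · exact ih h2
        · have := hdig m i (by omega) h1
          omega
    have h1 := hlen (i + 1)
    by_cases h2 : n ≤ i + 1
    · exact key (i + 1) h2 (by omega)
    · have h3 := hlen n
      omega
  refine ⟨a, ?_, ?_, ?_⟩
  · intro n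
    by_cases hn : n < (L 0).length
    · rw [← hag 0 n hn, List.getD_eq_getElem _ _ hn]
      exact h0 _ (List.getElem_mem hn)
    · have := hloc 0 n (by omega)
      omega
  · rw [tendsto_atTop_atTop]
    intro b
    refine ⟨(L b).length, ?_⟩
    intro i hi
    have := hloc b i hi
    omega
  · intro n
    apply List.ext_getElem
    · simp
    · intro i h1 h2
      have h3 := hag n i h1
      rw [List.getD_eq_getElem _ _ h1] at h3
      simp [h3]

/-- The conclusion of the problem for one `x`. -/
def Concl (x : ℝ) : Prop :=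
  ∃ g₁ g₂ : ℝ,
        g₁ ∈ Set.Ioo (0 : ℝ) 1 ∧ g₂ ∈ Set.Ioo (0 : ℝ) 1 ∧
        Filter.Tendsto (fun n : ℕ => ⌊1 / ((fun y : ℝ => Int.fract (1 / y))^[n] g₁)⌋)
          Filter.atTop Filter.atTop ∧
        Filter.Tendsto (fun n : ℕ => ⌊1 / ((fun y : ℝ => Int.fract (1 / y))^[n] g₂)⌋)
          Filter.atTop Filter.atTop ∧
        x = g₁ + g₂

theorem concl_of_chain (x : ℝ) (A B : ℕ → List ℕ) (hA0 : ∀ d ∈ A 0, 1 ≤ d) (hB0 : ∀ d ∈ B 0, 1 ≤ d)
    (hA : ∀ n, Ext (A n) (A (n + 1)) (n + 1)) (hB : ∀ n, Ext (B n) (B (n + 1)) (n + 1))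
    (hlim : Tendsto (fun n => (cs (A n)).conv + (cs (B n)).conv) atTop (𝓝 x)) : Concl x := by
  obtain ⟨a, ha1, ha, hLa⟩ := exists_seq A hA0 hA
  obtain ⟨b, hb1, hb, hLb⟩ := exists_seq B hB0 hB
  obtain ⟨g, hg, hga, hgd⟩ := exists_gauss a ha1
  obtain ⟨g', hg', hga', hgd'⟩ := exists_gauss b hb1
  have hlenA : Tendsto (fun n => (A n).length) atTop atTop := by
    have : StrictMono (fun n => (A n).length) := strictMono_nat_of_lt_succ fun n => (hA n).length_lt
    exact this.tendsto_atTop
  have hlenB : Tendsto (fun n => (B n).length) atTop atTop := by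
    have : StrictMono (fun n => (B n).length) := strictMono_nat_of_lt_succ fun n => (hB n).length_lt
    exact this.tendsto_atTop
  have h1 : Tendsto (fun n => (cs (A n)).conv) atTop (𝓝 g) := by
    have := hga.comp hlenA
    refine this.congr ?_
    intro n
    simp only [Function.comp]
    rw [← cs_range_map, ← hLa n]
  have h2 : Tendsto (fun n => (cs (B n)).conv) atTop (𝓝 g') := by
    have := hga'.comp hlenB
    refine this.congr ?_
    intro n
    simp only [Function.comp]
    rw [← cs_range_map, ← hLb n]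
  have hsum : x = g + g' := tendsto_nhds_unique hlim (h1.add h2)
  refine ⟨g, g', hg, hg', ?_, ?_, hsum⟩
  · have : (fun n : ℕ => ⌊1 / ((fun y : ℝ => Int.fract (1 / y))^[n] g)⌋) = fun n => ((a n : ℕ) : ℤ) := by
      funext n; exact hgd n
    rw [this]
    exact tendsto_natCast_atTop_atTop.comp ha
  · have : (fun n : ℕ => ⌊1 / ((fun y : ℝ => Int.fract (1 / y))^[n] g')⌋) = fun n => ((b n : ℕ) : ℤ) := by
      funext n; exact hgd' n
    rw [this]
    exact tendsto_natCast_atTop_atTop.comp hb

end Pool.Agent.Zk37
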