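import Mathlib

set_option autoImplicit false

/-! Continued fraction states: digit lists, infinite digit sequences and the Gauss map. -/

namespace Pool.Agent.Zk37

open Filter Topology

/-- A continued fraction state: previous convergent `pm/qm` and current convergent `p/q`. -/
@[ext] structure CS where
  pm : ℕ
  qm : ℕ
  p : ℕ
  q : ℕ

namespace CS

/-- The empty state `1/0, 0/1`. -/
def init : CS := ⟨1, 0, 0, 1⟩

/-- Append one digit. -/
def step (s : CS) (d : ℕ) : CS := ⟨s.p, s.q, d * s.p + s.pm, d * s.q + s.qm⟩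

@[simp] lemma step_pm (s : CS) (d : ℕ) : (s.step d).pm = s.p := rfl
@[simp] lemma step_qm (s : CS) (d : ℕ) : (s.step d).qm = s.q := rfl
@[simp] lemma step_p (s : CS) (d : ℕ) : (s.step d).p = d * s.p + s.pm := rfl
@[simp] lemma step_q (s : CS) (d : ℕ) : (s.step d).q = d * s.q + s.qm := rfl

/-- The current convergent as a real number. -/
noncomputable def conv (s : CS) : ℝ := (s.p : ℝ) / s.q

/-- Basic facts about a reachable state, with sign `σ = (-1)^length`. -/
structure Good (s : CS) (σ : ℝ) : Prop where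
  qpos : 0 < s.q
  qle : s.qm ≤ s.q
  det : (s.q : ℝ) * s.pm - s.p * s.qm = σ
  sgn : σ = 1 ∨ σ = -1

lemma good_init : Good init 1 := ⟨by simp [init], by simp [init], by simp [init], Or.inl rfl⟩

lemma Good.step {s : CS} {σ : ℝ} (h : Good s σ) {d : ℕ} (hd : 1 ≤ d) : Good (s.step d) (-σ) := by
  have h1 := h.qpos
  have h2 := h.det
  refine ⟨?_, ?_, ?_, ?_⟩
  · simp only [step_q]; positivity
  · simp only [step_q, step_qm]; nlinarith
  · simp only [step_q, step_qm, step_p, step_pm]; push_cast; linarith
  · rcases h.sgn with h | h <;> simp [h]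

lemma Good.qposR {s : CS} {σ : ℝ} (h : Good s σ) : (0 : ℝ) < s.q := by exact_mod_cast h.qpos

lemma Good.sq {s : CS} {σ : ℝ} (h : Good s σ) : σ * σ = 1 := by
  rcases h.sgn with h | h <;> simp [h]

lemma Good.conv_step {s : CS} {σ : ℝ} (h : Good s σ) {d : ℕ} (hd : 1 ≤ d) :
    conv (s.step d) = conv s + σ / (s.q * (d * s.q + s.qm)) := by
  have h1 := h.qposR
  have h2 := h.det
  have h3 : (0 : ℝ) < d * s.q + s.qm := by
    have : (1 : ℝ) ≤ d := by exact_mod_cast hd
    positivity
  unfold conv
  simp only [step_q, step_p]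
  push_cast
  rw [div_add_div _ _ h1.ne' (by positivity), div_eq_div_iff h3.ne' (by positivity)]
  rw [← h2]; ring

end CS

/-- The state reached by reading a digit list. -/
def cs (L : List ℕ) : CS := L.foldl CS.step CS.init

@[simp] lemma cs_nil : cs [] = CS.init := rfl

lemma cs_snoc (L : List ℕ) (d : ℕ) : cs (L ++ [d]) = (cs L).step d := by
  simp [cs, List.foldl_append]

/-- The states of an infinite digit sequence. -/
def sq (a : ℕ → ℕ) : ℕ → CS
  | 0 => CS.init
  | n + 1 => (sq a n).step (a n)

lemma cs_range_map (a : ℕ → ℕ) (n : ℕ) : cs ((List.range n).map a) = sq a n := by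
  induction n with
  | zero => rfl
  | succ n ih => rw [List.range_succ, List.map_append, List.map_singleton, cs_snoc, ih]; rfl

/-- the Gauss map. -/
noncomputable def gauss (y : ℝ) : ℝ := Int.fract (1 / y)

section seq

variable (a : ℕ → ℕ) (ha : ∀ n, 1 ≤ a n)

include ha

lemma good_sq (n : ℕ) : CS.Good (sq a n) ((-1) ^ n) := by
  induction n with
  | zero => simpa [sq] using CS.good_init
  | succ n ih =>
    have := ih.step (ha n)
    rw [pow_succ, mul_neg_one]
    exact this

lemma q_lower (n : ℕ) : (n : ℝ) ≤ (sq a n).q ∧ (n : ℝ) - 1 ≤ (sq a n).qm := by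
  have key : ∀ n, n ≤ (sq a n).q ∧ n ≤ (sq a n).qm + 1 := by
    intro n
    induction n with
    | zero => simp
    | succ n ih =>
      have hg := good_sq a ha n
      have h1 := hg.qpos
      have h0 := ha n
      constructor
      · show n + 1 ≤ a n * (sq a n).q + (sq a n).qm
        rcases Nat.eq_zero_or_pos (sq a n).qm with h | h
        · rw [h] at ih ⊢
          have : 1 * (sq a n).q ≤ a n * (sq a n).q := Nat.mul_le_mul_right _ h0
          -- n ≤ 1
          have hn : n ≤ 1 := by omega
          interval_cases n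
          · omega
          · exfalso
            have : (sq a 1).qm = 1 := rfl
            omega
        · have : 1 * (sq a n).q ≤ a n * (sq a n).q := Nat.mul_le_mul_right _ h0
          omega
      · show n + 1 ≤ (sq a n).q + 1
        omega
  obtain ⟨h1, h2⟩ := key n
  constructor
  · exact_mod_cast h1
  · have : (n : ℝ) ≤ (sq a n).qm + 1 := by exact_mod_cast h2
    linarith

lemma conv_succ (n : ℕ) : CS.conv (sq a (n + 1)) =
    CS.conv (sq a n) + (-1) ^ n / ((sq a n).q * (sq a (n + 1)).q) := by
  have := (good_sq a ha n).conv_step (ha n)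
  rw [show sq a (n + 1) = (sq a n).step (a n) from rfl, this]
  simp only [CS.step_q]
  push_cast
  rfl

lemma conv_add_two (n : ℕ) : ∃ δ : ℝ, 0 < δ ∧
    CS.conv (sq a (n + 2)) = CS.conv (sq a n) + (-1) ^ n * δ := by
  refine ⟨1 / ((sq a n).q * (sq a (n + 1)).q) - 1 / ((sq a (n + 1)).q * (sq a (n + 2)).q), ?_, ?_⟩
  · have h0 := (good_sq a ha n).qposR
    have h1 := (good_sq a ha (n + 1)).qposR
    have h2 := (good_sq a ha (n + 2)).qposR
    have h3 : ((sq a n).q : ℝ) < (sq a (n + 2)).q := by
      have h4 : (sq a (n + 2)).q = a (n + 1) * (sq a (n + 1)).q + (sq a n).q := rfl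
      have h5 : (1 : ℝ) ≤ a (n + 1) := by exact_mod_cast ha (n + 1)
      rw [h4]; push_cast
      nlinarith
    rw [sub_pos]
    apply one_div_lt_one_div_of_lt
    · positivity
    · nlinarith
  · rw [conv_succ a ha (n + 1), conv_succ a ha n]
    ring

/-- The limit of the convergents, with the strict alternation. -/
lemma exists_lim : ∃ g : ℝ, Tendsto (fun n => CS.conv (sq a n)) atTop (𝓝 g) ∧
    ∀ n, 0 < (-1) ^ n * (g - CS.conv (sq a n)) := by
  set c : ℕ → ℝ := fun n => CS.conv (sq a n) with hc
  have hd : ∀ n, |c (n + 1) - c n| ≤ 1 / (n + 1 : ℝ) := by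
    intro n
    have h := conv_succ a ha n
    have h0 := (good_sq a ha n).qposR
    have h1 := (good_sq a ha (n + 1)).qposR
    have h2 := (q_lower a ha (n + 1)).1
    have h3 : (1 : ℝ) ≤ (sq a n).q := by exact_mod_cast (good_sq a ha n).qpos
    have h4 : c (n + 1) - c n = (-1) ^ n / ((sq a n).q * (sq a (n + 1)).q) := by
      simp only [hc]; rw [h]; ring
    rw [h4, abs_div, abs_pow, abs_neg, abs_one, one_pow, abs_of_pos (by positivity)]
    apply one_div_le_one_div_of_le (by positivity)
    push_cast at h2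
    nlinarith
  -- even terms increase, odd terms decrease
  have heven : Monotone (fun k => c (2 * k)) := by
    apply monotone_nat_of_le_succ
    intro k
    obtain ⟨δ, hδ, h⟩ := conv_add_two a ha (2 * k)
    have h1 : c (2 * (k + 1)) = c (2 * k) + δ := by
      simp only [hc]
      rw [show 2 * (k + 1) = 2 * k + 2 by ring, h]
      simp
    rw [h1]; linarith
  have hodd : Antitone (fun k => c (2 * k + 1)) := by
    apply antitone_nat_of_succ_le
    intro k
    obtain ⟨δ, hδ, h⟩ := conv_add_two a ha (2 * k + 1)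
    have h1 : c (2 * (k + 1) + 1) = c (2 * k + 1) - δ := by
      simp only [hc]
      rw [show 2 * (k + 1) + 1 = 2 * k + 1 + 2 by ring, h]
      rw [pow_succ, pow_mul]; simp; ring
    rw [h1]; linarith
  have hlt : ∀ k, c (2 * k) < c (2 * k + 1) := by
    intro k
    have h := conv_succ a ha (2 * k)
    have h0 := (good_sq a ha (2 * k)).qposR
    have h1 := (good_sq a ha (2 * k + 1)).qposR
    have : (0 : ℝ) < (-1) ^ (2 * k) / ((sq a (2 * k)).q * (sq a (2 * k + 1)).q) := by
      rw [pow_mul]; simp; positivity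
    simp only [hc]; rw [h]; linarith
  have hcross : ∀ j k, c (2 * j) ≤ c (2 * k + 1) := by
    intro j k
    rcases le_total j k with h | h
    · exact (heven h).trans (hlt k).le
    · exact (hlt j).le.trans (hodd h)
  have hbdd : BddAbove (Set.range fun k => c (2 * k)) := by
    refine ⟨c 1, ?_⟩
    rintro _ ⟨k, rfl⟩
    exact hcross k 0
  set g := ⨆ k, c (2 * k) with hg
  have hE : Tendsto (fun k => c (2 * k)) atTop (𝓝 g) := tendsto_atTop_ciSup heven hbdd
  have hdiff : Tendsto (fun n => c (n + 1) - c n) atTop (𝓝 0) := by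
    apply squeeze_zero_norm (a := fun n : ℕ => 1 / (n + 1 : ℝ))
    · intro n; exact hd n
    · exact tendsto_one_div_add_atTop_nhds_zero_nat
  have hO : Tendsto (fun k => c (2 * k + 1)) atTop (𝓝 g) := by
    have h2 : Tendsto (fun k : ℕ => 2 * k) atTop atTop := by
      apply tendsto_atTop_mono (f := id) _ tendsto_id
      intro k; simp only [id]; omega
    have h1 := (hdiff.comp h2).add hE
    simpa using h1
  have hall : Tendsto c atTop (𝓝 g) := by
    rw [Metric.tendsto_atTop] at hE hO ⊢
    intro ε hε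
    obtain ⟨N1, h1⟩ := hE ε hε
    obtain ⟨N2, h2⟩ := hO ε hε
    refine ⟨2 * (N1 + N2) + 1, ?_⟩
    intro n hn
    rcases Nat.even_or_odd' n with ⟨k, hk | hk⟩
    · rw [hk]; exact h1 k (by omega)
    · rw [hk]; exact h2 k (by omega)
  refine ⟨g, hall, ?_⟩
  intro n
  rcases Nat.even_or_odd' n with ⟨k, hk | hk⟩
  · obtain ⟨δ, hδ, h⟩ := conv_add_two a ha n
    have h1 : c (2 * (k + 1)) ≤ g := le_ciSup hbdd (k + 1)
    have h2 : c (2 * (k + 1)) = c n + δ := by
      simp only [hc]
      rw [show 2 * (k + 1) = n + 2 by omega, h, hk, pow_mul]; simp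
    have h3 : ((-1 : ℝ)) ^ n = 1 := by rw [hk, pow_mul]; simp
    rw [h3]
    show 0 < 1 * (g - c n)
    linarith
  · obtain ⟨δ, hδ, h⟩ := conv_add_two a ha n
    have h1 : g ≤ c (2 * (k + 1) + 1) := hodd.le_of_tendsto hO (k + 1)
    have h3 : ((-1 : ℝ)) ^ n = -1 := by rw [hk, pow_succ, pow_mul]; simp
    have h2 : c (2 * (k + 1) + 1) = c n - δ := by
      simp only [hc]
      rw [show 2 * (k + 1) + 1 = n + 2 by omega, h, h3]; ring
    rw [h3]
    show 0 < -1 * (g - c n)
    linarith

/-- **Digits to reals.** A sequence of positive digits is the sequence of partial quotients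
(computed by the Gauss map) of the limit of its convergents. -/
theorem exists_gauss : ∃ g : ℝ, g ∈ Set.Ioo (0 : ℝ) 1 ∧
    Tendsto (fun n => CS.conv (sq a n)) atTop (𝓝 g) ∧
    ∀ n, ⌊1 / (gauss^[n] g)⌋ = a n := by
  obtain ⟨g, hg, hs⟩ := exists_lim a ha
  -- D n = q g - p
  set D : ℕ → ℝ := fun n => (sq a n).q * g - (sq a n).p with hD
  set Dm : ℕ → ℝ := fun n => (sq a n).qm * g - (sq a n).pm with hDm
  have hDs : ∀ n, 0 < (-1) ^ n * D n := by
    intro n
    have h0 := (good_sq a ha n).qposR
    have h1 := hs n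
    have : (-1) ^ n * D n = (sq a n).q * ((-1) ^ n * (g - CS.conv (sq a n))) := by
      simp only [hD, CS.conv]; field_simp
    rw [this]; positivity
  have hDmz : Dm 0 = -1 := by simp [hDm, sq, CS.init]
  have hDmS : ∀ n, Dm (n + 1) = D n := by intro n; rfl
  have hDS : ∀ n, D (n + 1) = a n * D n + Dm n := by
    intro n
    simp only [hD, hDm, sq, CS.step_q, CS.step_p]; push_cast; ring
  have hDms : ∀ n, (-1) ^ n * Dm n < 0 := by
    intro n
    cases n with
    | zero => simp [hDmz]
    | succ n => rw [hDmS, pow_succ]; have := hDs n; linarith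
  set z : ℕ → ℝ := fun n => - D n / Dm n with hz
  have hsq : ∀ n, ((-1 : ℝ)) ^ n * (-1) ^ n = 1 := by
    intro n; rw [← mul_pow]; simp
  have hDne : ∀ n, D n ≠ 0 := by
    intro n h; have := hDs n; rw [h] at this; simp at this
  have hDmne : ∀ n, Dm n ≠ 0 := by
    intro n h; have := hDms n; rw [h] at this; simp at this
  have hzpos : ∀ n, 0 < z n := by
    intro n
    have h1 := hDs n
    have h2 := hDms n
    have : z n = ((-1) ^ n * D n) / (-((-1) ^ n * Dm n)) := by
      simp only [hz]
      have h3 := hDmne n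
      have h4 : ((-1 : ℝ)) ^ n ≠ 0 := pow_ne_zero _ (by norm_num)
      field_simp
    rw [this]
    apply div_pos h1; linarith
  have hzrec : ∀ n, 1 / z n = a n + z (n + 1) := by
    intro n
    have h1 := hDne n
    have h2 := hDmne n
    simp only [hz]
    rw [hDmS, hDS]
    field_simp
    ring
  have hzlt : ∀ n, z n < 1 := by
    intro n
    have h1 := hzrec n
    have h2 := hzpos n
    have h3 := hzpos (n + 1)
    have h4 : (1 : ℝ) ≤ a n := by exact_mod_cast ha n
    have h5 : 1 < 1 / z n := by rw [h1]; linarith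
    rw [lt_div_iff₀ h2] at h5
    linarith
  have hz0 : z 0 = g := by
    simp only [hz]
    rw [hDmz]
    simp [hD, sq, CS.init]
  have hfl : ∀ n, ⌊1 / z n⌋ = a n := by
    intro n
    rw [hzrec, Int.floor_eq_iff]
    have h2 := hzpos (n + 1)
    have h3 := hzlt (n + 1)
    push_cast
    constructor <;> linarith
  have hit : ∀ n, gauss^[n] g = z n := by
    intro n
    induction n with
    | zero => simp [hz0]
    | succ n ih =>
      rw [Function.iterate_succ_apply', ih]
      unfold gauss
      rw [Int.fract, hfl, hzrec]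
      push_cast; ring
  refine ⟨g, ⟨?_, ?_⟩, hg, ?_⟩
  · rw [← hz0]; exact hzpos 0
  · rw [← hz0]; exact hzlt 0
  · intro n; rw [hit, hfl]

end seq

end Pool.Agent.Zk37
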