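import Pool.Agent.Zk37.ChainCF

set_option autoImplicit false

/-! The two-player step for an irrational target. -/

namespace Pool.Agent.Zk37

open Filter Topology

/-- Overshooting: the continued fraction digit of an irrational target. -/
lemma overshoot {y : ℝ} (hy : Irrational y) {s : CS} {σ : ℝ} (hs : s.Good σ)
    (hpos : 0 < σ * (y - s.conv)) (hlt : σ * (y - s.conv) * (s.q * (s.q + s.qm)) < 1) :
    ∃ c : ℕ, 1 ≤ c ∧ σ * (y - s.conv) * (s.q * (c * s.q + s.qm)) < 1 ∧
      1 < σ * (y - s.conv) * (s.q * ((c + 1) * s.q + s.qm)) ∧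
      0 < (-σ) * (y - (s.step c).conv) ∧
      (-σ) * (y - (s.step c).conv) = 1 / (s.q * (c * s.q + s.qm)) - σ * (y - s.conv) ∧
      (-σ) * (y - (s.step c).conv) * ((s.step c).q * ((s.step c).q + (s.step c).qm)) < 1 := by
  set e := σ * (y - s.conv) with he
  have hq := hs.qposR
  have hqm : (0 : ℝ) ≤ s.qm := by positivity
  set c := ⌊(1 / (e * s.q) - s.qm) / s.q⌋₊ with hc
  have hy1 : 1 ≤ (1 / (e * s.q) - s.qm) / s.q := by
    rw [le_div_iff₀ hq, one_mul, le_sub_iff_add_le, le_div_iff₀ (by positivity)]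
    nlinarith
  have hc1 : 1 ≤ c := by
    rw [hc]; exact (Nat.one_le_floor_iff _).2 hy1
  have hle : (c : ℝ) ≤ (1 / (e * s.q) - s.qm) / s.q := Nat.floor_le (by linarith)
  have hgt : (1 / (e * s.q) - s.qm) / s.q < c + 1 := Nat.lt_floor_add_one _
  have hc1R : (1 : ℝ) ≤ c := by exact_mod_cast hc1
  have h1 : e * (s.q * (c * s.q + s.qm)) ≤ 1 := by
    rw [le_div_iff₀ hq, le_sub_iff_add_le, le_div_iff₀ (by positivity)] at hle
    linarith
  have h2 : 1 < e * (s.q * ((c + 1) * s.q + s.qm)) := by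
    rw [div_lt_iff₀ hq, sub_lt_iff_lt_add, div_lt_iff₀ (by positivity)] at hgt
    linarith
  have hne : e * (s.q * (c * s.q + s.qm)) ≠ 1 := by
    intro h
    apply hy
    have h3 : y = s.conv + σ / (s.q * (c * s.q + s.qm)) := by
      have h4 : (0 : ℝ) < s.q * (c * s.q + s.qm) := by positivity
      have h5 : e = 1 / (s.q * (c * s.q + s.qm)) := by
        rw [eq_div_iff h4.ne']; exact h
      have h6 : σ * e = y - s.conv := by
        rw [he, ← mul_assoc, hs.sq, one_mul]
      have h7 : y = s.conv + σ * e := by rw [h6]; ring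
      rw [h7, h5]; ring
    rcases hs.sgn with hσ | hσ
    · refine ⟨(s.p : ℚ) / s.q + 1 / (s.q * (c * s.q + s.qm)), ?_⟩
      rw [h3, hσ]; unfold CS.conv; push_cast; ring
    · refine ⟨(s.p : ℚ) / s.q + (-1) / (s.q * (c * s.q + s.qm)), ?_⟩
      rw [h3, hσ]; unfold CS.conv; push_cast; ring
  have h1' : e * (s.q * (c * s.q + s.qm)) < 1 := lt_of_le_of_ne h1 hne
  have hq' : (0 : ℝ) < c * s.q + s.qm := by positivity
  have hconv := hs.conv_step hc1
  have heq : (-σ) * (y - (s.step c).conv) = 1 / (s.q * (c * s.q + s.qm)) - e := by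
    rw [hconv]
    have : (-σ) * (y - (s.conv + σ / (s.q * (c * s.q + s.qm)))) =
      (σ * σ) * (1 / (s.q * (c * s.q + s.qm))) - e := by rw [he]; ring
    rw [this, hs.sq, one_mul]
  refine ⟨c, hc1, h1', h2, ?_, heq, ?_⟩
  · rw [heq, sub_pos, lt_div_iff₀ (by positivity)]
    exact h1'
  · rw [heq]
    simp only [CS.step_q, CS.step_qm]
    push_cast
    have h5 : (1 / (s.q * (c * s.q + s.qm)) - e) * ((c * s.q + s.qm) * ((c * s.q + s.qm) + s.q)) =
      ((c + 1) * s.q + s.qm) * (1 / s.q) - e * ((c * s.q + s.qm) * ((c + 1) * s.q + s.qm)) := by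
      field_simp; ring
    rw [h5]
    have h6 : (((c : ℝ) + 1) * s.q + s.qm) * (1 / (s.q : ℝ)) = 1 + (c * s.q + s.qm) * (1 / (s.q : ℝ)) := by
      field_simp; ring
    rw [h6]
    have h7 : ((c : ℝ) * s.q + s.qm) * (1 / (s.q : ℝ)) <
        e * ((c * s.q + s.qm) * ((c + 1) * s.q + s.qm)) := by
      rw [mul_one_div, div_lt_iff₀ hq]
      have := mul_lt_mul_of_pos_left h2 hq'
      linarith
    linarith

/-- Two-player state. `A` has the large denominator. -/
structure St (x : ℝ) (σ : ℝ) (r : ℕ) (A B : CS) : Prop where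
  ga : A.Good σ
  gb : B.Good σ
  pos : 0 < σ * (x - A.conv - B.conv)
  lt : σ * (x - A.conv - B.conv) * (A.q * A.q) < 1
  rat : (r : ℝ) * B.q ≤ A.q

lemma irr_sub_conv {x : ℝ} (hx : Irrational x) (s : CS) : Irrational (x - s.conv) := by
  have : s.conv = ((s.p / s.q : ℚ) : ℝ) := by unfold CS.conv; push_cast; ring
  rw [this]
  exact hx.sub_ratCast _

theorem superstep {x : ℝ} (hx : Irrational x) {σ : ℝ} {r : ℕ} (hr : 4 ≤ r) {A B : CS}
    (h : St x σ r A B) :
    (∃ b c : ℕ, r ≤ b + 2 ∧ r ≤ c + 2 ∧ 1 ≤ b ∧ 1 ≤ c ∧ St x (-σ) (r + 1) (A.step c) (B.step b)) ∨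
    (∃ b c : ℕ, r ≤ b + 2 ∧ r ≤ c + 2 ∧ 1 ≤ b ∧ 1 ≤ c ∧ St x σ (r + 1) ((B.step b).step c) A) := by
  obtain ⟨ga, gb, hpos, hlt, hrat⟩ := h
  have hrR : (4 : ℝ) ≤ r := by exact_mod_cast hr
  have hQ := ga.qposR
  have hu := gb.qposR
  have hum : (0 : ℝ) ≤ B.qm := by positivity
  have humu : (B.qm : ℝ) ≤ B.q := by exact_mod_cast gb.qle
  have hQm : (0 : ℝ) ≤ A.qm := by positivity
  have hQmQ : (A.qm : ℝ) ≤ A.q := by exact_mod_cast ga.qle
  set e := σ * (x - A.conv - B.conv) with he
  -- overshoot for B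
  have h4BA : 4 * (B.q : ℝ) ≤ A.q := by
    have : (4 : ℝ) * B.q ≤ r * B.q := mul_le_mul_of_nonneg_right hrR hu.le
    linarith
  have hB := overshoot (irr_sub_conv hx A) gb hpos (by
    rw [← he]
    have : e * (B.q * (B.q + B.qm)) ≤ e * (A.q * A.q) := by
      apply mul_le_mul_of_nonneg_left _ hpos.le
      exact mul_le_mul (by linarith) (by linarith) (by linarith) (by linarith)
    linarith)
  rw [← he] at hB
  obtain ⟨a, ha1, hea, hea1, hpos2, heq2, hlt2⟩ := hB
  have ha1R : (1 : ℝ) ≤ a := by exact_mod_cast ha1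
  -- W = q(a+1), V = q(a)
  obtain ⟨W, hW⟩ : ∃ W : ℝ, W = (a + 1) * B.q + B.qm := ⟨_, rfl⟩
  obtain ⟨V, hV⟩ : ∃ V : ℝ, V = a * B.q + B.qm := ⟨_, rfl⟩
  have hWV : W = V + B.q := by rw [hW, hV]; ring
  have hVpos : 0 < V := by rw [hV]; positivity
  have hWpos : 0 < W := by rw [hWV]; positivity
  rw [← hV] at hea heq2
  rw [← hW] at hea1
  -- W > r Q
  have hQ2 : (A.q : ℝ) * A.q < B.q * W := by
    by_contra hcon
    push Not at hcon
    have : e * (B.q * W) ≤ e * (A.q * A.q) := mul_le_mul_of_nonneg_left hcon hpos.le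
    linarith
  have hWQ : (r : ℝ) * A.q < W := by
    by_contra hcon
    push Not at hcon
    have h1 : B.q * W ≤ B.q * (r * A.q) := mul_le_mul_of_nonneg_left hcon hu.le
    have h2 : (r : ℝ) * B.q * A.q ≤ A.q * A.q := mul_le_mul_of_nonneg_right hrat hQ.le
    have h3 : (B.q : ℝ) * (r * A.q) = r * B.q * A.q := by ring
    linarith
  have hWu : (r : ℝ) * r * B.q < W := by
    have : (r : ℝ) * (r * B.q) ≤ r * A.q := mul_le_mul_of_nonneg_left hrat (by positivity)
    linarith
  -- size of a
  have haR : (r : ℝ) * r < a + 2 := by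
    have h1 : W ≤ (a + 2) * B.q := by
      have : ((a : ℝ) + 2) * B.q = (a + 1) * B.q + B.q := by ring
      rw [hW, this]; linarith
    have h2 : (r : ℝ) * r * B.q < (a + 2) * B.q := lt_of_lt_of_le hWu h1
    exact lt_of_mul_lt_mul_right h2 hu.le
  have haN : r + 2 ≤ a + 2 := by
    have h2 : (4 : ℝ) * r ≤ r * r := mul_le_mul_of_nonneg_right hrR (by positivity)
    have h1 : (r : ℝ) + 2 < a + 2 := by linarith
    exact_mod_cast h1.le
  -- e₁
  obtain ⟨e₁, he₁⟩ : ∃ e₁ : ℝ, e₁ = e - 1 / (B.q * W) := ⟨_, rfl⟩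
  have he₁pos : 0 < e₁ := by
    rw [he₁, sub_pos, div_lt_iff₀ (by positivity)]
    linarith
  have he₁V : e₁ * (V * W) < 1 := by
    have h1 : e₁ * (V * W) = (e * (B.q * V) * W - V) / B.q := by
      rw [he₁]; field_simp
    rw [h1, div_lt_one hu]
    have h2 : e * (B.q * V) * W < 1 * W := mul_lt_mul_of_pos_right hea hWpos
    linarith
  by_cases hlam : (r : ℝ) * (e₁ * (W * W)) ≤ r - 1
  · -- path R
    left
    have gb' := gb.step (d := a + 1) (by omega)
    have hconvB := gb.conv_step (d := a + 1) (by omega)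
    have hE1 : σ * (x - (B.step (a + 1)).conv - A.conv) = e₁ := by
      rw [hconvB, he₁, he]
      push_cast
      rw [← hW]
      have : σ * (x - (B.conv + σ / (B.q * W)) - A.conv) =
        σ * (x - A.conv - B.conv) - (σ * σ) * (1 / (B.q * W)) := by ring
      rw [this, gb.sq, one_mul]
    have hWQ1 : e₁ * (A.q * (A.q + A.qm)) < 1 := by
      have h3 : 4 * (A.q : ℝ) ≤ W := by
        have : (4 : ℝ) * A.q ≤ r * A.q := mul_le_mul_of_nonneg_right hrR hQ.le
        linarith
      have h4 : (r : ℝ) * (e₁ * (W * W)) < r := by linarith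
      have h5 : e₁ * (W * W) < 1 := by
        have : (r : ℝ) * (e₁ * (W * W)) < r * 1 := by linarith
        exact lt_of_mul_lt_mul_left this (by positivity)
      have h6 : e₁ * (A.q * (A.q + A.qm)) ≤ e₁ * (W * W) :=
        mul_le_mul_of_nonneg_left
          (mul_le_mul (by linarith) (by linarith) (by linarith) (by linarith)) he₁pos.le
      linarith
    obtain ⟨c, hc1, hec, hec1, hpos3, heq3, hlt3⟩ :=
      overshoot (irr_sub_conv hx (B.step (a + 1))) ga (by rw [hE1]; exact he₁pos)
        (by rw [hE1]; exact hWQ1)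
    rw [hE1] at hec hec1 heq3
    have hc1R : (1 : ℝ) ≤ c := by exact_mod_cast hc1
    -- W² < ...
    have hkey : (r : ℝ) * (W * W) < (r - 1) * (A.q * ((c + 1) * A.q + A.qm)) := by
      have h1 : (0 : ℝ) < A.q * ((c + 1) * A.q + A.qm) := by positivity
      have h2 : r * (W * W) * 1 < r * (W * W) * (e₁ * (A.q * ((c + 1) * A.q + A.qm))) := by
        apply mul_lt_mul_of_pos_left hec1 (by positivity)
      have h3 : r * (e₁ * (W * W)) * (A.q * ((c + 1) * A.q + A.qm)) ≤
        (r - 1) * (A.q * ((c + 1) * A.q + A.qm)) := mul_le_mul_of_nonneg_right hlam h1.le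
      have h4 : r * (W * W) * (e₁ * (A.q * ((c + 1) * A.q + A.qm))) =
        r * (e₁ * (W * W)) * (A.q * ((c + 1) * A.q + A.qm)) := by ring
      linarith
    -- C = c Q + Qm
    obtain ⟨C, hC⟩ : ∃ C : ℝ, C = c * A.q + A.qm := ⟨_, rfl⟩
    have hC1 : ((c : ℝ) + 1) * A.q + A.qm = C + A.q := by rw [hC]; ring
    rw [hC1] at hkey
    -- r² W < (r-1)(C+Q)
    have hkey2 : (r : ℝ) * r * W < (r - 1) * (C + A.q) := by
      have h1 : (r : ℝ) * W * (r * A.q) ≤ r * W * W := mul_le_mul_of_nonneg_left hWQ.le (by positivity)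
      have h2 : (A.q : ℝ) * (r * r * W) < A.q * ((r - 1) * (C + A.q)) := by
        have e1 : (A.q : ℝ) * (r * r * W) = r * W * (r * A.q) := by ring
        have e2 : (r : ℝ) * (W * W) = r * W * W := by ring
        have e3 : (A.q : ℝ) * ((r - 1) * (C + A.q)) = (r - 1) * (A.q * (C + A.q)) := by ring
        rw [e1, e3]; linarith
      exact lt_of_mul_lt_mul_left h2 hQ.le
    have hCW : ((r : ℝ) + 1) * W ≤ C := by
      by_contra hcon
      push Not at hcon
      have h1 : ((r : ℝ) - 1) * C < (r - 1) * ((r + 1) * W) := by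
        apply mul_lt_mul_of_pos_left hcon; linarith
      have h2 : ((r : ℝ) - 1) * A.q ≤ W := by
        have : ((r : ℝ) - 1) * A.q = r * A.q - A.q := by ring
        linarith
      have e1 : ((r : ℝ) - 1) * (C + A.q) = (r - 1) * C + (r - 1) * A.q := by ring
      have e2 : ((r : ℝ) - 1) * ((r + 1) * W) = r * r * W - W := by ring
      linarith
    have hcR : (r : ℝ) < c + 2 := by
      have h1 : C + A.q ≤ (c + 2) * A.q := by
        have : ((c : ℝ) + 2) * A.q = c * A.q + A.q + A.q := by ring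
        rw [hC, this]; linarith
      have h3 : 1 * W ≤ ((r : ℝ) + 1) * W := mul_le_mul_of_nonneg_right (by linarith) hWpos.le
      have h2 : (r : ℝ) * A.q < (c + 2) * A.q := by linarith
      exact lt_of_mul_lt_mul_right h2 hQ.le
    refine ⟨a + 1, c, by omega, ?_, by omega, hc1, ?_⟩
    · exact_mod_cast hcR.le
    · have hsub : x - (B.step (a + 1)).conv - (A.step c).conv =
          x - (A.step c).conv - (B.step (a + 1)).conv := by ring
      refine ⟨ga.step hc1, gb', ?_, ?_, ?_⟩
      · rw [← hsub]; exact hpos3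
      · rw [← hsub]
        refine lt_of_le_of_lt ?_ hlt3
        apply mul_le_mul_of_nonneg_left _ hpos3.le
        apply mul_le_mul_of_nonneg_left _ (by positivity)
        simp
      · simp only [CS.step_q]
        push_cast
        rw [← hW, ← hC]
        exact hCW
  · -- path W
    right
    push Not at hlam
    have gb' := gb.step ha1
    have gb'' := gb'
    -- remaining error after B plays a
    obtain ⟨e₂, he₂⟩ : ∃ e₂ : ℝ, e₂ = (-σ) * (x - A.conv - (B.step a).conv) := ⟨_, rfl⟩
    rw [← he₂] at hpos2 heq2 hlt2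
    have hlt2' : (-σ) * (x - A.conv - (B.step a).conv) *
        ((B.step a).q * ((B.step a).q + (B.step a).qm)) < 1 := by rw [← he₂]; exact hlt2
    obtain ⟨c, hc1, hec, hec1, hpos3, heq3, hlt3⟩ :=
      overshoot (irr_sub_conv hx A) gb' (by rw [← he₂]; exact hpos2) hlt2'
    rw [← he₂] at hec hec1 heq3
    rw [neg_neg] at hpos3 heq3 hlt3
    have hc1R : (1 : ℝ) ≤ c := by exact_mod_cast hc1
    have hqa : ((B.step a).q : ℝ) = V := by rw [hV]; simp
    have hqma : ((B.step a).qm : ℝ) = B.q := by simp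
    rw [hqa, hqma] at hec hec1
    -- e₂ = 1/(VW) - e₁
    have he₂' : e₂ * (V * W) = 1 - e₁ * (V * W) := by
      rw [heq2, he₁, hWV]; field_simp; ring
    -- e₂ V² bound : r² e₂ V² < r + 1
    have hkey : (r : ℝ) * r * (e₂ * (V * V)) < r + 1 := by
      -- multiply by W² : e₂ V² W² = V W - e₁ W² V² < V W - (r-1)/r V²
      have h1 : (r : ℝ) * (e₂ * (V * V)) * (W * W) < r * (V * W) - (r - 1) * (V * V) := by
        have h2 : (r : ℝ) * (e₂ * (V * V)) * (W * W) = r * (V * W) * (e₂ * (V * W)) := by ring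
        rw [h2, he₂']
        have h3 : (r - 1) * (V * V) < r * (e₁ * (W * W)) * (V * V) :=
          mul_lt_mul_of_pos_right hlam (by positivity)
        have h4 : (r : ℝ) * (V * W) * (1 - e₁ * (V * W)) =
          r * (V * W) - r * (e₁ * (W * W)) * (V * V) := by ring
        linarith
      -- r V W - (r-1) V² = V (r (W - V) + V) = V (r u + V)
      have h4 : r * (V * W) - (r - 1) * (V * V) = V * (r * B.q + V) := by rw [hWV]; ring
      rw [h4] at h1
      -- want r * that ≤ (r+1) W²
      have h5 : r * (V * (r * B.q + V)) ≤ (r + 1) * (W * W) := by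
        have h6 : V ≤ W := by linarith
        have h7 : V * (r * r * B.q + r * V) ≤ W * (W + r * W) := by
          apply mul_le_mul h6 _ (by positivity) (by positivity)
          have : (r : ℝ) * V ≤ r * W := mul_le_mul_of_nonneg_left h6 (by positivity)
          linarith
        have e1 : r * (V * (r * B.q + V)) = V * (r * r * B.q + r * V) := by ring
        have e2 : ((r : ℝ) + 1) * (W * W) = W * (W + r * W) := by ring
        rw [e1, e2]; exact h7
      have h8 : (r : ℝ) * r * (e₂ * (V * V)) * (W * W) < (r + 1) * (W * W) := by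
        have : (r : ℝ) * (r * (e₂ * (V * V)) * (W * W)) < r * (V * (r * B.q + V)) :=
          mul_lt_mul_of_pos_left h1 (by positivity)
        have e1 : (r : ℝ) * r * (e₂ * (V * V)) * (W * W) = r * (r * (e₂ * (V * V)) * (W * W)) := by ring
        rw [e1]; linarith
      exact lt_of_mul_lt_mul_right h8 (by positivity)
    -- r² V < (r+1) (c V + u + V)
    have hkey2 : (r : ℝ) * r * V < (r + 1) * ((c + 1) * V + B.q) := by
      have h1 : (r : ℝ) * r * V * 1 < r * r * V * (e₂ * (V * ((c + 1) * V + B.q))) :=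
        mul_lt_mul_of_pos_left hec1 (by positivity)
      have h2 : (r : ℝ) * r * (e₂ * (V * V)) * ((c + 1) * V + B.q) ≤ (r + 1) * ((c + 1) * V + B.q) :=
        mul_le_mul_of_nonneg_right hkey.le (by positivity)
      have e1 : (r : ℝ) * r * V * (e₂ * (V * ((c + 1) * V + B.q))) =
        r * r * (e₂ * (V * V)) * ((c + 1) * V + B.q) := by ring
      linarith
    have huV : (B.q : ℝ) ≤ V := by
      have : 1 * (B.q : ℝ) ≤ a * B.q := mul_le_mul_of_nonneg_right ha1R hu.le
      rw [hV]; linarith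
    have hcR : (r : ℝ) < c + 3 := by
      have h1 : (c + 1) * V + B.q ≤ (c + 2) * V := by
        have : ((c : ℝ) + 2) * V = (c + 1) * V + V := by ring
        rw [this]; linarith
      have h2 : (r : ℝ) * r * V < (r + 1) * (c + 2) * V := by
        have h3 : ((r : ℝ) + 1) * ((c + 1) * V + B.q) ≤ (r + 1) * ((c + 2) * V) :=
          mul_le_mul_of_nonneg_left h1 (by positivity)
        rw [mul_assoc ((r : ℝ) + 1)]
        linarith
      have h3 : (r : ℝ) * r < (r + 1) * (c + 2) := lt_of_mul_lt_mul_right h2 hVpos.le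
      by_contra hcon
      push Not at hcon
      have h4 : ((r : ℝ) + 1) * (c + 2) ≤ (r + 1) * (r - 1) := by
        apply mul_le_mul_of_nonneg_left _ (by positivity); linarith
      have h5 : ((r : ℝ) + 1) * (r - 1) = r * r - 1 := by ring
      linarith
    -- r V ≥ (r²-1) Q
    have hVQ : ((r : ℝ) * r - 1) * A.q < r * V := by
      have h1 : r * V = r * W - r * B.q := by rw [hWV]; ring
      have h2 : (r : ℝ) * (r * A.q) < r * W := mul_lt_mul_of_pos_left hWQ (by positivity)
      have h3 : ((r : ℝ) * r - 1) * A.q = r * (r * A.q) - A.q := by ring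
      linarith
    refine ⟨a, c, by omega, ?_, ha1, hc1, ?_⟩
    · have : r < c + 3 := by exact_mod_cast hcR
      omega
    · refine ⟨?_, ga, ?_, ?_, ?_⟩
      · have := gb'.step hc1
        rwa [neg_neg] at this
      · have : x - ((B.step a).step c).conv - A.conv = x - A.conv - ((B.step a).step c).conv := by ring
        rw [this]; exact hpos3
      · have : x - ((B.step a).step c).conv - A.conv = x - A.conv - ((B.step a).step c).conv := by ring
        rw [this]
        refine lt_of_le_of_lt ?_ hlt3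
        apply mul_le_mul_of_nonneg_left _ hpos3.le
        apply mul_le_mul_of_nonneg_left _ (by positivity)
        simp only [le_add_iff_nonneg_right]
        positivity
      · have h9 : (((B.step a).step c).q : ℝ) = c * V + B.q := by
          rw [CS.step_q]; push_cast; rw [hqma, hqa]
        rw [h9]
        push_cast
        -- (r+1) (cV + u) > (r² - r - 1) V
        have h1 : ((r : ℝ) * r - r - 1) * V < (r + 1) * (c * V + B.q) := by
          have e1 : ((r : ℝ) * r - r - 1) * V = r * r * V - (r + 1) * V := by ring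
          have e2 : ((r : ℝ) + 1) * ((c + 1) * V + B.q) = (r + 1) * (c * V + B.q) + (r + 1) * V := by ring
          linarith
        have h2 : (0 : ℝ) < (r : ℝ) * r - r - 1 := by nlinarith
        have h3 : ((r : ℝ) * r - r - 1) * (((r : ℝ) * r - 1) * A.q) < (r * r - r - 1) * (r * V) :=
          mul_lt_mul_of_pos_left hVQ h2
        have h4 : ((r : ℝ) + 1) * ((r + 1) * A.q * r) ≤ (r * r - r - 1) * ((r * r - 1) * A.q) := by
          have h5 : ((r : ℝ) + 1) * (r + 1) * r ≤ (r * r - r - 1) * (r * r - 1) := by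
            have h6 : (r * r - r - 1) * (r * r - 1) - (r + 1) * (r + 1) * r =
              ((r : ℝ) + 1) * (r * r * (r - 4) + (r * (r - 4) + (3 * r + 1))) := by ring
            have h7 : 0 ≤ ((r : ℝ) + 1) * (r * r * (r - 4) + (r * (r - 4) + (3 * r + 1))) := by
              have : (0 : ℝ) ≤ r - 4 := by linarith
              positivity
            linarith
          have e1 : ((r : ℝ) + 1) * ((r + 1) * A.q * r) = (r + 1) * (r + 1) * r * A.q := by ring
          have e2 : ((r : ℝ) * r - r - 1) * ((r * r - 1) * A.q) = (r * r - r - 1) * (r * r - 1) * A.q := by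
            ring
          rw [e1, e2]
          exact mul_le_mul_of_nonneg_right h5 hQ.le
        have h5 : ((r : ℝ) + 1) * r * ((r + 1) * A.q) < (r + 1) * r * (c * V + B.q) := by
          have e1 : ((r : ℝ) + 1) * r * ((r + 1) * A.q) = (r + 1) * ((r + 1) * A.q * r) := by ring
          have e2 : ((r : ℝ) + 1) * r * (c * V + B.q) = r * ((r + 1) * (c * V + B.q)) := by ring
          have e3 : (r : ℝ) * ((r * r - r - 1) * V) < r * ((r + 1) * (c * V + B.q)) :=
            mul_lt_mul_of_pos_left h1 (by positivity)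
          have e4 : (r : ℝ) * ((r * r - r - 1) * V) = (r * r - r - 1) * (r * V) := by ring
          rw [e1, e2]; linarith
        have h6 : ((r : ℝ) + 1) * A.q < c * V + B.q := by
          exact lt_of_mul_lt_mul_left h5 (by positivity)
        exact h6.le

end Pool.Agent.Zk37
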